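import Mathlib

set_option autoImplicit false

namespace Pool.Agent.H.MP_523fe6_co

open Finset Polynomial

def LC (p : ℝ[X]) : Prop := (∀ i, 0 ≤ p.coeff i) ∧
  ∀ i j, i ≤ j → p.coeff i * p.coeff (j + 2) ≤ p.coeff (i + 1) * p.coeff (j + 1)

lemma LC.mul {q : ℝ[X]} (h : LC q) {c : ℝ} (hc : 0 ≤ c) : LC ((X + C c) * q) := by
  obtain ⟨h1, h2⟩ := h
  have e0 : ((X + C c) * q).coeff 0 = c * q.coeff 0 := by simp [add_mul]
  have e1 : ∀ k, ((X + C c) * q).coeff (k + 1) = q.coeff k + c * q.coeff (k + 1) := fun k => by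
    simp [add_mul, coeff_X_mul]
  have h3 : ∀ i j, i ≤ j → q.coeff i * q.coeff (j + 1) ≤ q.coeff (i + 1) * q.coeff j := fun i j hij => by
    rcases hij.eq_or_lt with rfl | g
    · exact (mul_comm _ _).le
    · obtain ⟨j, rfl⟩ : ∃ j', j = j' + 1 := ⟨j - 1, by omega⟩
      exact h2 i j (by omega)
  refine ⟨fun i => ?_, fun i j hij => ?_⟩
  · rcases i with _ | i
    · rw [e0]; exact mul_nonneg hc (h1 0)
    · rw [e1]; exact add_nonneg (h1 _) (mul_nonneg hc (h1 _))
  · rcases i with _ | i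
    · rw [e0, e1, e1, e1]
      have a1 := mul_le_mul_of_nonneg_left (h2 0 j hij) (mul_nonneg hc hc)
      have a2 := mul_nonneg (h1 0) (h1 j)
      have a3 := mul_nonneg hc (mul_nonneg (h1 1) (h1 j))
      nlinarith
    · obtain ⟨j, rfl⟩ : ∃ j', j = j' + 1 := ⟨j - 1, by omega⟩
      rw [e1, e1, e1, e1]
      have a1 := mul_le_mul_of_nonneg_left (h2 (i + 1) (j + 1) hij) (mul_nonneg hc hc)
      have a2 := h2 i j (by omega)
      have a3 := mul_le_mul_of_nonneg_left ((h2 i (j + 1) (by omega)).trans (h3 (i + 1) (j + 1) hij)) hc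
      nlinarith

lemma LC.prod {q : ℝ[X]} (h : LC q) (c : ℕ → ℝ) (hc : ∀ i, 0 ≤ c i) (n : ℕ) :
    LC ((∏ i ∈ range n, (X + C (c i))) * q) := by
  induction n with
  | zero => simpa using h
  | succ n ih => rw [prod_range_succ_comm, mul_assoc]; exact ih.mul (hc n)

lemma RR (r : ℕ) : ∀ p : ℝ[X], p.natDegree ≤ r + 1 → 0 ≤ p.coeff (r + 1) → ∀ x : ℕ → ℝ, StrictAnti x → x 0 ≤ 0 →
    (∀ k ≤ r, 0 < (-1) ^ k * p.eval (x k)) → LC p := by
  induction r with
  | zero =>
    intro p h1 h2 x _ h4 h5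
    have e := eq_X_add_C_of_natDegree_le_one h1
    have h6 := h5 0 le_rfl
    rw [e] at h6
    simp only [pow_zero, one_mul, eval_add, eval_mul, eval_C, eval_X] at h6
    have h7 : ∀ i, 0 ≤ p.coeff i := fun i => by
      rcases i with _ | _ | i
      · nlinarith
      · exact h2
      · exact (coeff_eq_zero_of_natDegree_lt (by omega)).ge
    refine ⟨h7, fun i j _ => ?_⟩
    rw [coeff_eq_zero_of_natDegree_lt (n := j + 2) (by omega), mul_zero]
    exact mul_nonneg (h7 _) (h7 _)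
  | succ r ih =>
    intro p h1 h2 x h3 h4 h5
    have a0 := h5 0 (by omega)
    have a1 := h5 1 (by omega)
    obtain ⟨ρ, hρ, e⟩ := intermediate_value_Ioo (h3 zero_lt_one).le (p.continuous.continuousOn)
      (show (0 : ℝ) ∈ Set.Ioo (p.eval (x 1)) (p.eval (x 0)) from ⟨by linarith, by linarith⟩)
    obtain ⟨q, rfl⟩ := dvd_iff_isRoot.2 e
    have hq : q ≠ 0 := by rintro rfl; simp at a0
    rw [natDegree_mul (X_sub_C_ne_zero ρ) hq, natDegree_X_sub_C] at h1
    have b1 : q.natDegree ≤ r + 1 := by omega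
    rw [sub_eq_add_neg, ← C_neg]
    refine (ih q b1 ?_ (fun k => x (k + 1)) (fun a b hab => h3 (by omega)) ((h3 (Nat.lt_succ_self 0)).le.trans h4)
      fun k hk => ?_).mul (by linarith [hρ.2])
    · simpa [sub_mul, coeff_X_mul, coeff_eq_zero_of_natDegree_lt (show q.natDegree < r + 1 + 1 by omega)] using h2
    · have a2 := h5 (k + 1) (by omega)
      have a3 : x (k + 1) < ρ := (h3.antitone (by omega)).trans_lt hρ.1
      simp only [eval_mul, eval_sub, eval_X, eval_C, pow_succ] at a2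
      by_contra g
      nlinarith [mul_nonneg (sub_pos.2 a3).le (neg_nonneg.2 (not_lt.1 g))]

noncomputable def mc (a : ℕ) : ℝ[X] := C ((a.factorial : ℝ)⁻¹) * ∏ s ∈ range a, (X + C (s : ℝ))

lemma mc_zero : mc 0 = 1 := by simp [mc]

lemma mc_succ (a : ℕ) : ((a : ℝ[X]) + 1) * mc (a + 1) = (X + (a : ℝ[X])) * mc a := by
  have : ((a : ℝ[X]) + 1) * C (((a + 1).factorial : ℝ)⁻¹) = C ((a.factorial : ℝ)⁻¹) := by
    rw [← map_natCast C, ← C_1, ← C_add, ← C_mul, Nat.factorial_succ]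
    congr 1
    push_cast
    field_simp
  rw [mc, mc, prod_range_succ, ← mul_assoc, this, map_natCast]
  ring

lemma vdm (n : ℕ) : (n.factorial : ℝ[X]) * ∑ p ∈ antidiagonal n, mc p.1 * mc p.2 =
    ∏ s ∈ range n, (2 * X + (s : ℝ[X])) := by
  induction n with
  | zero => simp [mc_zero]
  | succ n ih =>
    have e1 : ∑ p ∈ antidiagonal (n + 1), (p.1 : ℝ[X]) * (mc p.1 * mc p.2) =
        ∑ p ∈ antidiagonal n, (X + (p.1 : ℝ[X])) * (mc p.1 * mc p.2) := by
      rw [Nat.sum_antidiagonal_succ]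
      simp only [Nat.cast_zero, zero_mul, zero_add, Nat.cast_add, Nat.cast_one, ← mul_assoc, mc_succ]
    have e2 : ∑ p ∈ antidiagonal (n + 1), (p.2 : ℝ[X]) * (mc p.1 * mc p.2) =
        ∑ p ∈ antidiagonal n, (X + (p.2 : ℝ[X])) * (mc p.1 * mc p.2) := by
      rw [Nat.sum_antidiagonal_succ']
      simp only [Nat.cast_zero, zero_mul, zero_add, Nat.cast_add, Nat.cast_one]
      exact sum_congr rfl fun p _ => by linear_combination mc p.1 * mc_succ p.2
    have e3 : ((n : ℝ[X]) + 1) * ∑ p ∈ antidiagonal (n + 1), mc p.1 * mc p.2 =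
        (2 * X + (n : ℝ[X])) * ∑ p ∈ antidiagonal n, mc p.1 * mc p.2 := by
      rw [mul_sum, mul_sum, sum_congr rfl (g := fun p => (p.1 : ℝ[X]) * (mc p.1 * mc p.2) + p.2 * (mc p.1 * mc p.2)),
        sum_add_distrib, e1, e2, ← sum_add_distrib]
      · refine sum_congr rfl fun p hp => ?_
        rw [← HasAntidiagonal.mem_antidiagonal.1 hp]; push_cast; ring
      · intro p hp
        have := congrArg (Nat.cast : ℕ → ℝ[X]) (HasAntidiagonal.mem_antidiagonal.1 hp)
        push_cast at this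
        rw [← this]; ring
    rw [prod_range_succ, ← ih, Nat.factorial_succ]
    push_cast
    linear_combination (n.factorial : ℝ[X]) * e3

lemma tele (n k : ℕ) (h : k ≤ n + 1) : X * ∑ i ∈ range k, ((n : ℝ[X]) - 2 * i) * (mc i * mc (n - i)) =
    (k : ℝ[X]) * mc k * (((n + 1 - k : ℕ) : ℝ[X]) * mc (n + 1 - k)) := by
  induction k with
  | zero => simp
  | succ k ih =>
    rw [sum_range_succ, mul_add, ih (by omega), show n + 1 - (k + 1) = n - k by omega,
      show n + 1 - k = n - k + 1 by omega]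
    have a1 := mc_succ k
    have a2 := mc_succ (n - k)
    push_cast [show k ≤ n by omega] at a2 ⊢
    linear_combination ((k : ℝ[X]) * mc k) * a2 - (((n : ℝ[X]) - k) * mc (n - k)) * a1

lemma half (r : ℕ) : ∑ p ∈ antidiagonal (2 * r + 1), mc p.1 * mc p.2 =
    2 * ∑ i ∈ range (r + 1), mc i * mc (2 * r + 1 - i) := by
  rw [Nat.sum_antidiagonal_eq_sum_range_succ fun i j => mc i * mc j, show (2 * r + 1).succ = r + 1 + (r + 1) by omega,
    sum_range_add, two_mul (∑ i ∈ _, _), ← sum_range_reflect (fun x => mc (r + 1 + x) * mc (2 * r + 1 - (r + 1 + x)))]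
  congr 1
  refine sum_congr rfl fun i hi => ?_
  rw [mem_range] at hi
  rw [mul_comm]
  congr 2 <;> omega

lemma odd_prod (r : ℕ) : ∏ s ∈ range (2 * r + 1), (2 * X + (s : ℝ[X])) =
    2 * 4 ^ r * (∏ s ∈ range (r + 1), (X + C (s : ℝ))) * ∏ s ∈ range r, (X + C (s + 1 / 2 : ℝ)) := by
  have h2 : (2 : ℝ[X]) * C (1 / 2 : ℝ) = 1 := by
    rw [show (2 : ℝ[X]) = C 2 from rfl, ← C_mul]; norm_num
  induction r with
  | zero => simp
  | succ r ih =>
    rw [show 2 * (r + 1) + 1 = 2 * r + 1 + 1 + 1 by ring, prod_range_succ, prod_range_succ, ih,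
      prod_range_succ _ (r + 1), prod_range_succ (fun s : ℕ => X + C (s + 1 / 2 : ℝ)) r]
    simp only [C_add, map_natCast]
    push_cast
    linear_combination (-4 * 4 ^ r * (∏ s ∈ range (r + 1), (X + (s : ℝ[X]))) *
      (∏ s ∈ range r, (X + ((s : ℝ[X]) + C (1 / 2 : ℝ)))) * (X + (r + 1))) * h2

noncomputable def Rp (r : ℕ) : ℝ[X] := C (((r.factorial : ℝ) ^ 2 * 2)⁻¹) * ∏ s ∈ range r, (X + C (s + 1 : ℝ)) -
  C (4 ^ r / ((2 * r + 1).factorial * 2) : ℝ) * ∏ s ∈ range r, (X + C (s + 1 / 2 : ℝ))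

lemma closed (r : ℕ) : ∑ i ∈ range r, C ((r : ℝ) - i) * mc i * mc (2 * r + 1 - i) =
    (∏ s ∈ range (r + 1), (X + C (s : ℝ))) * Rp r := by
  refine Polynomial.funext fun x => ?_
  have a1 := congrArg (eval x) (vdm (2 * r + 1))
  rw [half, odd_prod] at a1
  have a2 := tele (2 * r + 1) (r + 1) (by omega)
  rw [show 2 * r + 1 + 1 - (r + 1) = r + 1 by omega] at a2
  have a3 : ((r + 1 : ℕ) : ℝ[X]) * mc (r + 1) = X * (C ((r.factorial : ℝ)⁻¹) * ∏ s ∈ range r, (X + C (s + 1 : ℝ))) := by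
    push_cast
    rw [mc_succ, mc, mul_left_comm, ← map_natCast C, ← prod_range_succ_comm (fun s : ℕ => X + C (s : ℝ)),
      prod_range_succ']
    simp only [Nat.cast_add, Nat.cast_one, Nat.cast_zero, C_0, add_zero]
    ring
  rw [a3, mul_assoc] at a2
  have a4 := congrArg (eval x) (mul_left_cancel₀ X_ne_zero a2)
  have a5 : ∑ i ∈ range r, C ((r : ℝ) - i) * mc i * mc (2 * r + 1 - i) =
      ∑ i ∈ range (r + 1), C ((r : ℝ) - i) * mc i * mc (2 * r + 1 - i) := by
    rw [sum_range_succ]; simp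
  have a6 : ∑ i ∈ range (r + 1), ((r : ℝ) - i) * eval x (mc i) * eval x (mc (2 * r + 1 - i)) =
      (∑ i ∈ range (r + 1), (((2 * r + 1 : ℕ) : ℝ) - 2 * i) * (eval x (mc i) * eval x (mc (2 * r + 1 - i))) -
        ∑ i ∈ range (r + 1), eval x (mc i) * eval x (mc (2 * r + 1 - i))) / 2 := by
    rw [← sum_sub_distrib, sum_div]
    exact sum_congr rfl fun i _ => by push_cast; ring
  rw [a5, Rp, prod_range_succ'] at *
  simp only [eval_finsetSum, eval_one, eval_mul, eval_sub, eval_C, eval_natCast, eval_ofNat, eval_pow, eval_add, eval_X,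
    Nat.cast_add, Nat.cast_one, Nat.cast_zero, add_zero] at a1 a4 a6 ⊢
  rw [a6, a4, eq_div_of_mul_eq (show ((2 * r + 1).factorial : ℝ) * 2 ≠ 0 by positivity)
    ((mul_comm _ _).trans ((mul_assoc _ _ _).trans a1))]
  field_simp

lemma Rp_LC (r : ℕ) : LC (Rp (r + 1)) := by
  have m1 : ∀ c : ℕ → ℝ, (∏ s ∈ range (r + 1), (X + C (c s))).Monic := fun c =>
    monic_prod_of_monic _ _ fun s _ => monic_X_add_C _
  have m2 : ∀ c : ℕ → ℝ, (∏ s ∈ range (r + 1), (X + C (c s))).natDegree = r + 1 := fun c => by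
    rw [natDegree_prod_of_monic _ _ fun s _ => monic_X_add_C _]; simp
  have m3 : ∀ c : ℕ → ℝ, (∏ s ∈ range (r + 1), (X + C (c s))).coeff (r + 1) = 1 := fun c => by
    have := (m1 c).coeff_natDegree
    rwa [m2] at this
  refine RR r _ ?_ ?_ (fun k => -(k + 1 / 2)) (fun a b hab => ?_) (by norm_num) fun k hk => ?_
  · exact (natDegree_sub_le _ _).trans (max_le ((natDegree_C_mul_le _ _).trans (m2 _).le)
      ((natDegree_C_mul_le _ _).trans (m2 _).le))
  · rw [Rp, coeff_sub, coeff_C_mul, coeff_C_mul, m3, m3, mul_one, mul_one, sub_nonneg, inv_eq_one_div,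
      div_le_div_iff₀ (by positivity) (by positivity)]
    have h1 := Nat.four_pow_le_two_mul_self_mul_centralBinom (r + 1) (by omega)
    have h2 := Nat.choose_mul_factorial_mul_factorial (show r + 1 ≤ 2 * (r + 1) by omega)
    rw [show 2 * (r + 1) - (r + 1) = r + 1 by omega, ← Nat.centralBinom_eq_two_mul_choose] at h2
    have h3 : 4 ^ (r + 1) * ((r + 1).factorial ^ 2 * 2) ≤ 1 * ((2 * (r + 1) + 1).factorial * 2) := by
      rw [Nat.factorial_succ (2 * (r + 1)), ← h2]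
      have := Nat.mul_le_mul_right ((r + 1).factorial ^ 2 * 2) h1
      nlinarith [Nat.zero_le ((r + 1).centralBinom * (r + 1).factorial ^ 2)]
    exact_mod_cast h3
  · have : (a : ℝ) < b := by exact_mod_cast hab
    show -((b : ℝ) + 1 / 2) < -(a + 1 / 2)
    linarith
  · rw [Rp]
    simp only [eval_sub, eval_mul, eval_C, eval_prod, eval_add, eval_X]
    rw [prod_eq_zero (mem_range.2 (show k < r + 1 by omega)) (f := fun s : ℕ => -((k : ℝ) + 1 / 2) + (s + 1 / 2))
      (by ring), mul_zero, sub_zero, mul_left_comm]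
    refine mul_pos (by positivity) ?_
    obtain ⟨d, rfl⟩ := Nat.exists_eq_add_of_le hk
    rw [add_assoc, prod_range_add, ← mul_assoc]
    refine mul_pos ?_ (prod_pos fun s _ => by push_cast; have := s.cast_nonneg (α := ℝ); linarith)
    rw [show (-1 : ℝ) ^ k = ∏ s ∈ range k, (-1) by simp, ← prod_mul_distrib]
    refine prod_pos fun s hs => ?_
    have : (s : ℝ) + 1 ≤ k := by exact_mod_cast mem_range.1 hs
    linarith

theorem main (r : ℕ) : LC (∑ i ∈ range (r + 1), C (((r + 1 : ℕ) : ℝ) - i) * mc i * mc (2 * (r + 1) + 1 - i)) := by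
  rw [closed]
  exact (Rp_LC r).prod _ (fun i => i.cast_nonneg) _

end Pool.Agent.H.MP_523fe6_co
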